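import Pool.Agent.H2.NL.Basic
import Pool.Agent.H2.NL.Targets2

/-!
# Row CPL: the sign conjecture, if the motive `R` is odd
-/

set_option autoImplicit false

open Matrix Pool.Agent.H2.NL Pool.Agent.H64.CC

namespace Pool.Agent.H39.NL

private theorem cpl_even_mem {K : Type} [Field K] [CharZero K] (W : Weil K) (hW : W.Theory)
    (V : W.Var 0) : W.even V ∈ W.cyc V V 0 := by
  have h : W.even V = ∑ i ∈ Finset.range (2 * W.dim V + 1),
      (if Even i then W.pj V i else 0) := by
    ext a b
    rw [Matrix.sum_apply]
    by_cases hab : a = b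
    · subst hab
      have hd : W.deg V a ∈ Finset.range (2 * W.dim V + 1) :=
        Finset.mem_range.2 (Nat.lt_succ_of_le (hW.calculus.deg_le V a))
      rw [Finset.sum_eq_single_of_mem _ hd]
      · by_cases he : Even (W.deg V a)
        · simp [Weil.even, Weil.pj, he]
        · simp [Weil.even, he]
      · intro i _ hi
        by_cases he : Even i
        · simp [Weil.pj, he, Ne.symm hi]
        · simp [he]
    · have h1 : W.even V a b = 0 := Matrix.diagonal_apply_ne _ hab
      rw [h1]
      refine (Finset.sum_eq_zero fun i _ => ?_).symm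
      by_cases he : Even i
      · simp only [he, if_true]
        exact Matrix.diagonal_apply_ne _ hab
      · simp [he]
  rw [h]
  refine Submodule.sum_mem _ fun i _ => ?_
  by_cases he : Even i
  · simp only [he, if_true]
    exact hW.katzMessing V i
  · simp only [he, if_false]
    exact Submodule.zero_mem _

theorem pf_CPL (_hVAN : T_VAN) (hSCA : T_SCA) : T_CPL := by
  intro K _ _ W hW V L hL r m T S ε hε hvan hodd
  obtain ⟨q, c, hc, hεc⟩ := hSCA K W hW V L hL r m T S ε hε
  obtain ⟨v, hv0, hvd, hvk⟩ := S.vanishing
  have hq : (q : K) = 0 := by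
    have h1 : W.ap ε v = 0 := hvan v ⟨hvd, hvk⟩
    have h2 : W.ap ε v = (q : K) • v := by
      rw [hεc]
      show (((q : K) • (1 : Matrix _ _ K)) + (S.up * c) * S.down) *ᵥ v = (q : K) • v
      rw [Matrix.add_mulVec, Matrix.smul_mulVec, Matrix.one_mulVec, ← Matrix.mulVec_mulVec]
      have h3 : S.down *ᵥ v = 0 := hvk
      rw [h3, Matrix.mulVec_zero, add_zero]
    rw [h1] at h2
    rcases smul_eq_zero.1 h2.symm with h | h
    · exact h
    · exact absurd h hv0
  have hε2 : ε = S.up * c * S.down := by
    rw [hεc]
    show ((q : K) • (1 : Matrix _ _ K)) + (S.up * c) * S.down = S.up * c * S.down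
    rw [hq, zero_smul, zero_add]
  have h0 : W.HasDeg 0 ε := hW.calculus.cyc_deg T T 0 ε hε
  have heT : W.even T = ε * W.even T := by
    ext a b
    have hE : W.even T = Matrix.diagonal (fun a => if Even (W.deg T a) then (1 : K) else 0) := rfl
    have hR : (ε * W.even T) a b = ε a b * (if Even (W.deg T b) then (1 : K) else 0) := by
      rw [hE]
      exact Matrix.mul_diagonal _ _ _ _
    rw [hR]
    by_cases he : Even (W.deg T b)
    · rw [if_pos he, mul_one]
      by_cases hab : a = b
      · subst hab
        have h1 : W.even T a a = 1 := by simp [Weil.even, he]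
        rw [h1]
        by_contra hne
        have h2 : (1 - ε) a a ≠ 0 := by
          rw [Matrix.sub_apply, Matrix.one_apply_eq]
          exact sub_ne_zero.2 hne
        exact (Nat.not_even_iff_odd.2 (hodd a a h2)) he
      · have h1 : W.even T a b = 0 := Matrix.diagonal_apply_ne _ hab
        rw [h1]
        by_contra hne
        have h2 : (1 - ε) a b ≠ 0 := by
          rw [Matrix.sub_apply, Matrix.one_apply_ne hab, zero_sub]
          exact neg_ne_zero.2 (Ne.symm hne)
        have h3 := hodd a b h2
        have h4 := h0 a b (Ne.symm hne)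
        have h5 : W.deg T a = W.deg T b := by omega
        rw [h5] at h3
        exact (Nat.not_even_iff_odd.2 h3) he
    · rw [if_neg he, mul_zero]
      by_cases hab : a = b
      · subst hab
        simp [Weil.even, he]
      · exact Matrix.diagonal_apply_ne _ hab
  have hdown : S.down * W.even T = W.even V * S.down := by
    ext a b
    have hE : W.even T = Matrix.diagonal (fun a => if Even (W.deg T a) then (1 : K) else 0) := rfl
    have hE' : W.even V = Matrix.diagonal (fun a => if Even (W.deg V a) then (1 : K) else 0) := rfl
    have hR : (S.down * W.even T) a b = S.down a b * (if Even (W.deg T b) then (1 : K) else 0) := by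
      rw [hE]
      exact Matrix.mul_diagonal _ _ _ _
    have hR' : (W.even V * S.down) a b = (if Even (W.deg V a) then (1 : K) else 0) * S.down a b := by
      rw [hE']
      exact Matrix.diagonal_mul _ _ _ _
    rw [hR, hR']
    by_cases hz : S.down a b = 0
    · rw [hz, zero_mul, mul_zero]
    · have h1 := S.down_deg a b hz
      have h2 : Even (W.deg V a) ↔ Even (W.deg T b) := by
        have h3 : W.deg V a = W.deg T b + 2 * r := by omega
        rw [h3]
        constructor
        · rintro ⟨k, hk⟩
          exact ⟨k - r, by omega⟩
        · rintro ⟨k, hk⟩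
          exact ⟨k + r, by omega⟩
      by_cases he : Even (W.deg T b)
      · rw [if_pos he, if_pos (h2.2 he), one_mul, mul_one]
      · rw [if_neg he, if_neg (fun h => he (h2.1 h)), zero_mul, mul_zero]
  have hfin : W.even T = W.comp (W.comp S.up (W.comp c (W.even V))) S.down := by
    show W.even T = (S.up * (c * W.even V)) * S.down
    calc W.even T = ε * W.even T := heT
      _ = S.up * c * S.down * W.even T := by rw [← hε2]
      _ = S.up * c * (S.down * W.even T) := by rw [Matrix.mul_assoc]
      _ = S.up * c * (W.even V * S.down) := by rw [hdown]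
      _ = (S.up * (c * W.even V)) * S.down := by
        rw [← Matrix.mul_assoc, Matrix.mul_assoc S.up c]
  have hmem : W.comp c (W.even V) ∈ W.cyc V V (-(r : ℤ)) := by
    have h1 := hW.calculus.comp_mem V V V 0 (-(r : ℤ)) (W.even V) (cpl_even_mem W hW V) c hc
    rwa [zero_add] at h1
  show W.even T ∈ W.cyc T T 0
  rw [hfin]
  exact S.restrict _ hmem

end Pool.Agent.H39.NL
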